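import Mathlib

set_option autoImplicit false

namespace Pool.Agent.Q216.ER

open Module

variable {k V ι : Type*} [Field k] [AddCommGroup V] [Module k V]

/-- the skew map of the pair of vectors `x, y` -/
def E (x y : V) : Dual k V →ₗ[k] V where
  toFun g := g x • y - g y • x
  map_add' g h := by simp only [LinearMap.add_apply, add_smul]; abel
  map_smul' c g := by
    simp only [LinearMap.smul_apply, smul_eq_mul, mul_smul, RingHom.id_apply, smul_sub]

@[simp] lemma E_apply (x y : V) (g : Dual k V) : E x y g = g x • y - g y • x := rfl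

/-- a combination of the skew maps of the pairs `e i, a i` -/
def Y (S : Finset ι) (e a : ι → V) (t : ι → k) : Dual k V →ₗ[k] V :=
  ∑ i ∈ S, t i • E (e i) (a i)

lemma Y_apply (S : Finset ι) (e a : ι → V) (t : ι → k) (g : Dual k V) :
    Y S e a t g = ∑ i ∈ S, t i • (g (e i) • a i - g (a i) • e i) := by
  simp [Y]

/-- skew maps -/
def Skew (f : Dual k V →ₗ[k] V) : Prop := ∀ g h : Dual k V, h (f g) = - g (f h)

lemma Y_skew (S : Finset ι) (e a : ι → V) (t : ι → k) : Skew (Y S e a t) := by
  intro g h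
  rw [Y_apply, Y_apply, map_sum, map_sum, ← Finset.sum_neg_distrib]
  refine Finset.sum_congr rfl fun i _ => ?_
  simp only [map_smul, map_sub, smul_eq_mul]
  ring

lemma Y_self (S : Finset ι) (e a : ι → V) (t : ι → k) (g : Dual k V) : g (Y S e a t g) = 0 := by
  rw [Y_apply, map_sum]
  refine Finset.sum_eq_zero fun i _ => ?_
  simp only [map_smul, map_sub, smul_eq_mul]
  ring

lemma Skew.mem_ker {f : Dual k V →ₗ[k] V} (hf : Skew f) {g : Dual k V} (hg : ∀ x ∈ LinearMap.range f, g x = 0) :
    g ∈ LinearMap.ker f := by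
  rw [LinearMap.mem_ker]
  rw [← Module.forall_dual_apply_eq_zero_iff k]
  intro h
  rw [hf g h, hg _ ⟨h, rfl⟩, neg_zero]

lemma Skew.ker_zero {f : Dual k V →ₗ[k] V} (hf : Skew f) {g : Dual k V} (hg : g ∈ LinearMap.ker f)
    {x : V} (hx : x ∈ LinearMap.range f) : g x = 0 := by
  obtain ⟨h, rfl⟩ := hx
  rw [hf h g, LinearMap.mem_ker.1 hg, map_zero, neg_zero]

/-- separate a vector from a subspace -/
lemma sep (U : Submodule k V) {x : V} (hx : x ∉ U) : ∃ g : Dual k V, g x ≠ 0 ∧ ∀ y ∈ U, g y = 0 := by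
  obtain ⟨g, hg1, hg2⟩ := Submodule.exists_le_ker_of_notMem hx
  exact ⟨g, hg1, fun y hy => hg2 hy⟩

lemma Skew.mem_range {f : Dual k V →ₗ[k] V} (hf : Skew f) {x : V}
    (hx : ∀ g ∈ LinearMap.ker f, g x = 0) : x ∈ LinearMap.range f := by
  by_contra h
  obtain ⟨g, h1, h2⟩ := sep _ h
  exact h1 (hx g (hf.mem_ker h2))

/-- span of the lines with index in `J` -/
def sp (e a : ι → V) (J : Finset ι) : Submodule k V :=
  Submodule.span k (e '' J ∪ a '' J)

lemma mem_sp_e (e a : ι → V) {J : Finset ι} {i : ι} (hi : i ∈ J) : e i ∈ sp (k := k) e a J :=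
  Submodule.subset_span (Or.inl ⟨i, hi, rfl⟩)

lemma mem_sp_a (e a : ι → V) {J : Finset ι} {i : ι} (hi : i ∈ J) : a i ∈ sp (k := k) e a J :=
  Submodule.subset_span (Or.inr ⟨i, hi, rfl⟩)

lemma sp_le (e a : ι → V) {J : Finset ι} {U : Submodule k V} (h : ∀ i ∈ J, e i ∈ U ∧ a i ∈ U) :
    sp e a J ≤ U := by
  rw [sp, Submodule.span_le]
  rintro x (⟨i, hi, rfl⟩ | ⟨i, hi, rfl⟩)
  · exact (h i hi).1
  · exact (h i hi).2

lemma map_sp {W : Type*} [AddCommGroup W] [Module k W] (p : V →ₗ[k] W) (e a : ι → V) (J : Finset ι) :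
    (sp e a J).map p = sp (fun i => p (e i)) (fun i => p (a i)) J := by
  rw [sp, sp, Submodule.map_span, Set.image_union, Set.image_image, Set.image_image]

variable [FiniteDimensional k V]

lemma finrank_map_add {W : Type*} [AddCommGroup W] [Module k W] (p : V →ₗ[k] W) (U : Submodule k V) :
    finrank k (U.map p) + finrank k (U ⊓ LinearMap.ker p : Submodule k V) = finrank k U := by
  have h := LinearMap.finrank_range_add_finrank_ker (p.domRestrict U)
  rw [LinearMap.range_domRestrict] at h
  rw [← h]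
  congr 1
  have h2 : (LinearMap.ker (p.domRestrict U)).map U.subtype = U ⊓ LinearMap.ker p := by
    rw [LinearMap.ker_domRestrict]
    ext x
    simp only [Submodule.mem_map, Submodule.mem_comap, Submodule.mem_inf, Submodule.subtype_apply,
      LinearMap.mem_ker]
    constructor
    · rintro ⟨y, hy, rfl⟩
      exact ⟨y.2, hy⟩
    · rintro ⟨hx, hy⟩
      exact ⟨⟨x, hx⟩, hy, rfl⟩
  rw [← h2]
  exact (LinearEquiv.finrank_eq (Submodule.equivMapOfInjective _ U.injective_subtype _)).symm

/-- matchings -/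
def IsM (e a : ι → V) (J : Finset ι) : Prop := 2 * J.card ≤ finrank k (sp (k := k) e a J)

omit [FiniteDimensional k V] in
lemma finrank_sp_le (e a : ι → V) (J : Finset ι) : finrank k (sp (k := k) e a J) ≤ 2 * J.card := by
  classical
  have h : (e '' J ∪ a '' J : Set V) = ((J.image e ∪ J.image a : Finset V) : Set V) := by
    simp
  rw [sp, h]
  refine (finrank_span_finset_le_card _).trans ?_
  refine (Finset.card_union_le _ _).trans ?_
  have h1 := Finset.card_image_le (s := J) (f := e)
  have h2 := Finset.card_image_le (s := J) (f := a)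
  omega

end Pool.Agent.Q216.ER
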