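import Pool.Agent.Q216.ER.A1

set_option autoImplicit false

namespace Pool.Agent.Q216.ER

open Module

variable {k ι : Type*} [Field k]

lemma dualAnn_finrank {V : Type*} [AddCommGroup V] [Module k V] [FiniteDimensional k V]
    (W : Submodule k V) : finrank k W + finrank k W.dualAnnihilator = finrank k V :=
  Subspace.finrank_add_finrank_dualAnnihilator_eq W

/-- the rank bound, one step -/
lemma rec_step {V : Type*} [AddCommGroup V] [Module k V] [FiniteDimensional k V]
    {f f' : Dual k V →ₗ[k] V} (hf : Skew f) (hf' : Skew f') (hself : ∀ g : Dual k V, g (f g) = 0)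
    (L : Submodule k V) (hL : finrank k L = 2)
    (hff : ∀ g ∈ L.dualAnnihilator, f g = f' g) :
    finrank k (LinearMap.range f) ≤ finrank k (LinearMap.range f') ∨
    finrank k (LinearMap.range f) ≤ finrank k ((L.dualAnnihilator.map f').map L.mkQ) + 2 := by
  classical
  by_contra hcon
  push Not at hcon
  obtain ⟨hc1, hc2⟩ := hcon
  set B := L.dualAnnihilator with hB
  have hRR : B.map f = B.map f' := by
    ext x
    simp only [Submodule.mem_map]
    constructor
    · rintro ⟨g, hg, rfl⟩; exact ⟨g, hg, (hff g hg).symm⟩
    · rintro ⟨g, hg, rfl⟩; exact ⟨g, hg, hff g hg⟩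
  rw [← hRR] at hc2
  set R := B.map f with hR
  have h1 := finrank_map_add L.mkQ R
  rw [Submodule.ker_mkQ] at h1
  have h2 := finrank_map_add f B
  rw [← hR] at h2
  have h3 := LinearMap.finrank_range_add_finrank_ker f
  have h4 := dualAnn_finrank L
  rw [← hB, hL] at h4
  have h5 : finrank k (Dual k V) = finrank k V := Subspace.dual_finrank_eq
  have h6 : finrank k (B ⊓ LinearMap.ker f : Submodule k (Dual k V)) ≤ finrank k (LinearMap.ker f) :=
    Submodule.finrank_mono inf_le_right
  have h7 : finrank k (R ⊓ L : Submodule k V) ≤ finrank k L := Submodule.finrank_mono inf_le_right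
  have hann : ∀ {p : Dual k V →ₗ[k] V}, Skew p → L ≤ LinearMap.range p → LinearMap.ker p ≤ B := by
    intro p hp hLp g hg
    rw [hB, Submodule.mem_dualAnnihilator]
    intro x hx
    exact hp.ker_zero hg (hLp hx)
  -- `L ≤ R`
  have hLR : L ≤ R := by
    by_contra hnot
    have hlt : finrank k (R ⊓ L : Submodule k V) < 2 := by
      rw [← hL]
      refine Submodule.finrank_lt_finrank_of_lt (lt_of_le_of_ne inf_le_right fun h => hnot ?_)
      rw [← h]; exact inf_le_left
    have hpos : 0 < finrank k (R ⊓ L : Submodule k V) := by omega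
    have heq : finrank k (B ⊓ LinearMap.ker f : Submodule k (Dual k V)) =
        finrank k (LinearMap.ker f) := by omega
    have hker : LinearMap.ker f ≤ B := by
      have := Submodule.eq_of_le_of_finrank_eq (inf_le_right : B ⊓ LinearMap.ker f ≤ _) heq
      rw [← this]; exact inf_le_left
    have hLrange : L ≤ LinearMap.range f := by
      intro x hx
      apply hf.mem_range
      intro g hg
      exact (Submodule.mem_dualAnnihilator g).1 (hker hg) x hx
    have hne : (R ⊓ L : Submodule k V) ≠ ⊥ := by
      intro h; rw [h, finrank_bot] at hpos; omega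
    obtain ⟨r, hr, hr0⟩ := Submodule.exists_mem_ne_zero_of_ne_bot hne
    obtain ⟨⟨z, hz, hzr⟩, hrL⟩ := hr
    apply hnot
    intro r' hr'
    by_cases hrr : r' ∈ Submodule.span k {r}
    · obtain ⟨c, rfl⟩ := Submodule.mem_span_singleton.1 hrr
      exact Submodule.smul_mem _ _ ⟨z, hz, hzr⟩
    obtain ⟨z', hz'⟩ := hLrange hr'
    refine ⟨z', ?_, hz'⟩
    show z' ∈ L.dualAnnihilator
    have hspan : Submodule.span k {r, r'} = L := by
      apply Submodule.eq_of_le_of_finrank_le
      · rw [Submodule.span_le]
        intro x hx
        rcases hx with rfl | rfl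
        · exact hrL
        · exact hr'
      · rw [hL]
        have hlt2 : Submodule.span k {r} < Submodule.span k {r, r'} := by
          refine lt_of_le_of_ne (Submodule.span_mono (by simp)) ?_
          intro h
          exact hrr (h ▸ Submodule.subset_span (by simp))
        have := Submodule.finrank_lt_finrank_of_lt hlt2
        rw [finrank_span_singleton hr0] at this
        omega
    rw [← hspan, Submodule.mem_dualAnnihilator]
    intro x hx
    have hzz : z' r = 0 := by
      rw [← hzr, hf z z', hz']
      rw [(Submodule.mem_dualAnnihilator z).1 hz r' hr', neg_zero]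
    have hzz' : z' r' = 0 := by rw [← hz']; exact hself z'
    obtain ⟨c, d, rfl⟩ := Submodule.mem_span_pair.1 hx
    rw [map_add, map_smul, map_smul, hzz, hzz', smul_zero, smul_zero, add_zero]
  have hLr : L ≤ LinearMap.range f := hLR.trans (by rw [hR]; exact LinearMap.map_le_range)
  have hLr' : L ≤ LinearMap.range f' := hLR.trans (by rw [hRR]; exact LinearMap.map_le_range)
  have k1 := hann hf hLr
  have k2 := hann hf' hLr'
  have hkk : LinearMap.ker f' ≤ LinearMap.ker f := by
    intro g hg
    rw [LinearMap.mem_ker, hff g (k2 hg)]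
    exact hg
  have h8 := LinearMap.finrank_range_add_finrank_ker f'
  have h9 := Submodule.finrank_mono hkk
  omega

end Pool.Agent.Q216.ER
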