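import Pool.Agent.Q216.ER.A2

set_option autoImplicit false

namespace Pool.Agent.Q216.ER

open Module

universe u

variable {k ι : Type*} [Field k]

lemma E_eq_zero {V : Type*} [AddCommGroup V] [Module k V] {x y : V}
    (h : ¬ LinearIndependent k ![x, y]) : E (k := k) x y = 0 := by
  rw [LinearIndependent.pair_iff] at h
  push Not at h
  obtain ⟨s, t, h1, h2⟩ := h
  ext g
  simp only [E_apply, LinearMap.zero_apply]
  by_cases hs : s = 0
  · have ht : t ≠ 0 := h2 hs
    have hy : y = 0 := by
      rw [hs, zero_smul, zero_add] at h1
      exact (smul_eq_zero.1 h1).resolve_left ht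
    rw [hy, map_zero, zero_smul, smul_zero, sub_zero]
  · have hx : x = (- s⁻¹ * t) • y := by
      have h3 : s • x = - (t • y) := eq_neg_of_add_eq_zero_left h1
      rw [← inv_smul_smul₀ hs x, h3, smul_neg, smul_smul, neg_mul, neg_smul]
    rw [hx, map_smul, smul_eq_mul, smul_smul, mul_comm (g y), sub_self]

lemma finrank_line {V : Type*} [AddCommGroup V] [Module k V] {x y : V}
    (h : LinearIndependent k ![x, y]) : finrank k (Submodule.span k {x, y}) = 2 := by
  have := finrank_span_eq_card h
  rw [Matrix.range_cons, Matrix.range_cons, Matrix.range_empty, Set.union_empty,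
    Set.singleton_union, Fintype.card_fin] at this
  exact this

lemma mapY {V W : Type*} [AddCommGroup V] [Module k V] [AddCommGroup W] [Module k W]
    (p : V →ₗ[k] W) (S : Finset ι) (e a : ι → V) (t : ι → k) (g : Dual k W) :
    Y S (fun i => p (e i)) (fun i => p (a i)) t g = p (Y S e a t (p.dualMap g)) := by
  rw [Y_apply, Y_apply, map_sum]
  refine Finset.sum_congr rfl fun i _ => ?_
  rw [map_smul, map_sub, map_smul, map_smul]
  rfl

theorem exists_matching (S : Finset ι) : ∀ (V : Type u) [AddCommGroup V] [Module k V]
    [FiniteDimensional k V] (e a : ι → V) (t : ι → k),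
    ∃ J : Finset ι, J ⊆ S ∧ IsM (k := k) e a J ∧
      finrank k (LinearMap.range (Y S e a t)) ≤ 2 * J.card := by
  classical
  induction S using Finset.induction_on with
  | empty =>
    intro V _ _ _ e a t
    refine ⟨∅, Finset.empty_subset _, by simp [IsM], ?_⟩
    have : Y ∅ e a t = 0 := by simp [Y]
    rw [this, LinearMap.range_zero, finrank_bot]
    simp
  | insert i S hi ih =>
    intro V _ _ _ e a t
    have hY : Y (insert i S) e a t = t i • E (e i) (a i) + Y S e a t := by
      rw [Y, Finset.sum_insert hi]; rfl
    by_cases hli : LinearIndependent k ![e i, a i]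
    swap
    · obtain ⟨J, h1, h2, h3⟩ := ih V e a t
      refine ⟨J, h1.trans (Finset.subset_insert _ _), h2, ?_⟩
      rw [hY, E_eq_zero hli, smul_zero, zero_add]
      exact h3
    set L : Submodule k V := Submodule.span k {e i, a i} with hL
    have hL2 : finrank k L = 2 := finrank_line hli
    have hff : ∀ g ∈ L.dualAnnihilator, Y (insert i S) e a t g = Y S e a t g := by
      intro g hg
      rw [Submodule.mem_dualAnnihilator] at hg
      rw [hY, LinearMap.add_apply, LinearMap.smul_apply, E_apply,
        hg (e i) (Submodule.subset_span (by simp)), hg (a i) (Submodule.subset_span (by simp))]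
      simp
    rcases rec_step (Y_skew (insert i S) e a t) (Y_skew S e a t) (Y_self (insert i S) e a t)
      L hL2 hff with h | h
    · obtain ⟨J, h1, h2, h3⟩ := ih V e a t
      exact ⟨J, h1.trans (Finset.subset_insert _ _), h2, h.trans h3⟩
    · obtain ⟨J, h1, h2, h3⟩ := ih (V ⧸ L) (fun i => L.mkQ (e i)) (fun i => L.mkQ (a i)) t
      refine ⟨insert i J, Finset.insert_subset_insert _ h1, ?_, ?_⟩
      · have hiJ : i ∉ J := fun h => hi (h1 h)
        have hle : L ≤ sp (k := k) e a (insert i J) := by
          rw [hL, Submodule.span_le]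
          rintro x (rfl | rfl)
          · exact mem_sp_e _ _ (Finset.mem_insert_self _ _)
          · exact mem_sp_a _ _ (Finset.mem_insert_self _ _)
        have h4 := finrank_map_add L.mkQ (sp (k := k) e a (insert i J))
        rw [Submodule.ker_mkQ, inf_eq_right.2 hle, hL2] at h4
        have h5 : sp (k := k) (fun i => L.mkQ (e i)) (fun i => L.mkQ (a i)) J ≤
            (sp (k := k) e a (insert i J)).map L.mkQ := by
          rw [map_sp]
          apply sp_le
          intro j hj
          exact ⟨mem_sp_e (k := k) (fun i => L.mkQ (e i)) (fun i => L.mkQ (a i))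
            (Finset.mem_insert_of_mem hj),
            mem_sp_a (k := k) (fun i => L.mkQ (e i)) (fun i => L.mkQ (a i))
            (Finset.mem_insert_of_mem hj)⟩
        have h6 := Submodule.finrank_mono h5
        unfold IsM at h2 ⊢
        rw [Finset.card_insert_of_notMem hiJ]
        omega
      · have hiJ : i ∉ J := fun h => hi (h1 h)
        rw [Finset.card_insert_of_notMem hiJ]
        have h7 : (L.dualAnnihilator.map (Y S e a t)).map L.mkQ =
            LinearMap.range (Y S (fun i => L.mkQ (e i)) (fun i => L.mkQ (a i)) t) := by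
          ext x
          simp only [Submodule.mem_map, LinearMap.mem_range]
          constructor
          · rintro ⟨y, ⟨g, hg, rfl⟩, rfl⟩
            rw [← Submodule.range_dualMap_mkQ_eq] at hg
            obtain ⟨g', rfl⟩ := hg
            exact ⟨g', mapY _ _ _ _ _ _⟩
          · rintro ⟨g', rfl⟩
            refine ⟨_, ⟨L.mkQ.dualMap g', ?_, rfl⟩, (mapY _ _ _ _ _ _).symm⟩
            rw [← Submodule.range_dualMap_mkQ_eq]
            exact ⟨g', rfl⟩
        rw [h7] at h
        omega

end Pool.Agent.Q216.ER
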