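import Pool.Agent.Q216.ER.A3

set_option autoImplicit false

namespace Pool.Agent.Q216.ER

open Module

universe u

variable {k ι : Type*} [Field k] {V : Type u} [AddCommGroup V] [Module k V]

section lin
variable [Fintype ι]

lemma Y_add (e a : ι → V) (t s : ι → k) :
    Y Finset.univ e a (t + s) = Y Finset.univ e a t + Y Finset.univ e a s := by
  simp only [Y, Pi.add_apply, add_smul, Finset.sum_add_distrib]

lemma Y_smul (e a : ι → V) (t : ι → k) (c : k) :
    Y Finset.univ e a (c • t) = c • Y Finset.univ e a t := by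
  simp only [Y, Pi.smul_apply, smul_eq_mul, mul_smul, Finset.smul_sum]

lemma Y_single [DecidableEq ι] (e a : ι → V) (i : ι) :
    Y Finset.univ e a (Pi.single i (1 : k)) = E (e i) (a i) := by
  rw [Y, Finset.sum_eq_single i]
  · simp
  · intro j _ hj
    simp [Pi.single_eq_of_ne hj]
  · intro h; exact absurd (Finset.mem_univ _) h

/-- radicals of skew maps of maximal rank are isotropic for each line -/
lemma perp [FiniteDimensional k V] (e a : ι → V) (ν : ℕ)
    (hν : ∀ t : ι → k, finrank k (LinearMap.range (Y Finset.univ e a t)) ≤ 2 * ν)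
    (t : ι → k) (ht : 2 * ν ≤ finrank k (LinearMap.range (Y Finset.univ e a t))) (i : ι)
    {g h : Dual k V} (hg : g ∈ LinearMap.ker (Y Finset.univ e a t))
    (hh : h ∈ LinearMap.ker (Y Finset.univ e a t)) : g (e i) * h (a i) = g (a i) * h (e i) := by
  classical
  by_contra hne
  have hc : g (e i) * h (a i) - g (a i) * h (e i) ≠ 0 := sub_ne_zero.2 hne
  set c := g (e i) * h (a i) - g (a i) * h (e i) with hcdef
  set f := Y Finset.univ e a t with hf
  have hY : Y Finset.univ e a (t + Pi.single i 1) = f + E (e i) (a i) := by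
    rw [Y_add, Y_single]
  set f' := Y Finset.univ e a (t + Pi.single i 1) with hf'
  have h1 : f' g = g (e i) • a i - g (a i) • e i := by
    rw [hY, LinearMap.add_apply, LinearMap.mem_ker.1 hg, zero_add, E_apply]
  have h2 : f' h = h (e i) • a i - h (a i) • e i := by
    rw [hY, LinearMap.add_apply, LinearMap.mem_ker.1 hh, zero_add, E_apply]
  have he : e i ∈ LinearMap.range f' := by
    have : e i = c⁻¹ • (h (e i) • f' g - g (e i) • f' h) := by
      rw [h1, h2, eq_inv_smul_iff₀ hc, hcdef]
      module
    rw [this]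
    exact Submodule.smul_mem _ _ (Submodule.sub_mem _ (Submodule.smul_mem _ _ ⟨g, rfl⟩)
      (Submodule.smul_mem _ _ ⟨h, rfl⟩))
  have ha : a i ∈ LinearMap.range f' := by
    have : a i = c⁻¹ • (h (a i) • f' g - g (a i) • f' h) := by
      rw [h1, h2, eq_inv_smul_iff₀ hc, hcdef]
      module
    rw [this]
    exact Submodule.smul_mem _ _ (Submodule.sub_mem _ (Submodule.smul_mem _ _ ⟨g, rfl⟩)
      (Submodule.smul_mem _ _ ⟨h, rfl⟩))
  have hle : LinearMap.range f ≤ LinearMap.range f' := by
    rintro x ⟨z, rfl⟩
    have : f z = f' z - (z (e i) • a i - z (a i) • e i) := by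
      rw [hY, LinearMap.add_apply, E_apply]; abel
    rw [this]
    exact Submodule.sub_mem _ ⟨z, rfl⟩ (Submodule.sub_mem _ (Submodule.smul_mem _ _ ha)
      (Submodule.smul_mem _ _ he))
  have hsk : Skew f := Y_skew _ _ _ _
  have hlt : LinearMap.range f < LinearMap.range f' := by
    refine lt_of_le_of_ne hle ?_
    intro heq
    rw [← heq] at he ha
    apply hc
    rw [hcdef, hsk.ker_zero hg he, hsk.ker_zero hg ha]
    ring
  have := Submodule.finrank_lt_finrank_of_lt hlt
  have := hν (t + Pi.single i 1)
  rw [← hf'] at this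
  omega

end lin

/-- small perturbations of independent families are independent -/
lemma lin_perturb {β : Type*} [Finite β] (v w : β → V) (hv : LinearIndependent k v) :
    {s : k | ¬ LinearIndependent k (fun j => v j + s • w j)}.Finite := by
  classical
  have := Fintype.ofFinite β
  have hinj : LinearMap.ker (Fintype.linearCombination k v) = ⊥ := by
    rw [LinearMap.ker_eq_bot]
    exact linearIndependent_iff_injective_fintypeLinearCombination.1 hv
  obtain ⟨φ, hφ⟩ := LinearMap.exists_leftInverse_of_injective _ hinj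
  have hφv : ∀ j, φ (v j) = Pi.single j 1 := by
    intro j
    have h1 := congrArg (fun p => p (Pi.single j (1 : k))) hφ
    simp only [LinearMap.comp_apply, LinearMap.id_apply] at h1
    rw [Fintype.linearCombination_apply_single, one_smul] at h1
    exact h1
  let M : Matrix β β k := Matrix.of fun i j => - φ (w j) i
  have hM : ∀ s : k, (1 - s • M).det ≠ 0 → LinearIndependent k (fun j => v j + s • w j) := by
    intro s hs
    rw [Fintype.linearIndependent_iff]
    intro c hc
    have h2 : (1 - s • M).mulVec c = 0 := by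
      ext i
      have h3 := congrArg (fun x => φ x i) hc
      simp only [map_sum, map_smul, map_add, hφv, Finset.sum_apply, Pi.smul_apply, Pi.add_apply,
        smul_eq_mul, map_zero, Pi.zero_apply] at h3
      rw [Matrix.sub_mulVec, Matrix.one_mulVec, Matrix.smul_mulVec, Pi.sub_apply, Pi.smul_apply,
        Matrix.mulVec, dotProduct, Pi.zero_apply, smul_eq_mul, Finset.mul_sum, ← h3]
      simp only [M, Matrix.of_apply]
      have h4 : c i = ∑ x, c x * (Pi.single x (1 : k) : β → k) i := by
        rw [Finset.sum_eq_single i]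
        · simp
        · intro j _ hj; rw [Pi.single_eq_of_ne hj.symm]; simp
        · intro h; exact absurd (Finset.mem_univ _) h
      rw [h4, ← Finset.sum_sub_distrib]
      refine Finset.sum_congr rfl fun x _ => ?_
      ring
    have h5 := Matrix.eq_zero_of_mulVec_eq_zero hs h2
    intro i
    exact congrFun h5 i
  have hpoly : M.charpolyRev ≠ 0 := by
    intro h
    have := Matrix.eval_charpolyRev (M := M)
    rw [h, Polynomial.eval_zero] at this
    exact zero_ne_one this
  refine (Polynomial.finite_setOfPred_isRoot hpoly).subset ?_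
  intro s hs
  rw [Set.mem_ofPred_eq] at hs ⊢
  by_contra hroot
  apply hs
  apply hM
  intro hdet
  apply hroot
  rw [Polynomial.IsRoot, Matrix.charpolyRev, ← Polynomial.coe_evalRingHom, RingHom.map_det]
  rw [← hdet]
  congr 1
  ext i j
  simp [Matrix.one_apply, apply_ite]
  exact mul_comm _ _

/-- a property of `t` which is kept on a line up to finitely many points -/
def LO (P : (ι → k) → Prop) : Prop := ∀ x y, P x → {s : k | ¬ P (x + s • y)}.Finite

lemma LO.and {P Q : (ι → k) → Prop} (hP : LO P) (hQ : LO Q) : LO (fun t => P t ∧ Q t) := by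
  intro x y h
  refine ((hP x y h.1).union (hQ x y h.2)).subset ?_
  intro s hs
  simp only [Set.mem_ofPred_eq, Set.mem_union] at hs ⊢
  tauto

lemma LO.all {κ : Type*} [Finite κ] {P : κ → (ι → k) → Prop} (hP : ∀ c, LO (P c)) :
    LO (fun t => ∀ c, P c t) := by
  intro x y h
  refine (Set.finite_iUnion fun c => hP c x y (h c)).subset ?_
  intro s hs
  simp only [Set.mem_ofPred_eq, Set.mem_iUnion] at hs ⊢
  push Not at hs
  exact hs

lemma LO.imp {P : (ι → k) → Prop} (A : Prop) (hP : LO P) : LO (fun t => A → P t) := by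
  intro x y h
  by_cases hA : A
  · refine (hP x y (h hA)).subset ?_
    intro s hs hs'
    exact hs fun _ => hs'
  · convert Set.finite_empty
    ext s
    simp [hA]

lemma LO.comp {P : (ι → k) → Prop} (hP : LO P) (m m' : (ι → k) → (ι → k))
    (hm : ∀ x y (s : k), m (x + s • y) = m x + s • m' y) : LO (fun t => P (m t)) := by
  intro x y h
  refine (hP (m x) (m' y) h).subset ?_
  intro s hs
  simp only [Set.mem_ofPred_eq] at hs ⊢
  rwa [hm] at hs

lemma LO.exists_and [Infinite k] {P Q : (ι → k) → Prop} (hP : LO P) (hQ : LO Q) {x z : ι → k}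
    (hx : P x) (hz : Q z) : ∃ t, P t ∧ Q t := by
  have h1 := hP x (z - x) hx
  have h2 := hQ z (x - z) hz
  have h3 : {s : k | ¬ Q (x + s • (z - x))}.Finite := by
    refine (h2.image (fun s => 1 - s)).subset ?_
    intro s hs
    refine ⟨1 - s, ?_, by simp⟩
    rw [Set.mem_ofPred_eq] at hs ⊢
    intro h
    apply hs
    convert h using 1
    module
  obtain ⟨s, hs⟩ := (h1.union h3).infinite_compl.nonempty
  simp only [Set.mem_compl_iff, Set.mem_union, Set.mem_ofPred_eq, not_or, not_not] at hs
  exact ⟨_, hs⟩

lemma LO.exists_all [Infinite k] {κ : Type*} [Finite κ] {P : κ → (ι → k) → Prop}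
    (hP : ∀ c, LO (P c)) (hex : ∀ c, ∃ t, P c t) : ∃ t, ∀ c, P c t := by
  classical
  have := Fintype.ofFinite κ
  suffices h : ∀ S : Finset κ, ∃ t, ∀ c ∈ S, P c t by
    obtain ⟨t, ht⟩ := h Finset.univ
    exact ⟨t, fun c => ht c (Finset.mem_univ c)⟩
  intro S
  induction S using Finset.induction_on with
  | empty => exact ⟨0, by simp⟩
  | insert c S hc ih =>
    obtain ⟨t, ht⟩ := ih
    obtain ⟨t', ht'⟩ := hex c
    obtain ⟨s, hs1, hs2⟩ := LO.exists_and (hP c)
      (LO.all (P := fun (x : S) t => P x t) (fun x => hP x)) ht' (fun x => ht x.1 x.2)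
    refine ⟨s, ?_⟩
    intro d hd
    rcases Finset.mem_insert.1 hd with rfl | hd
    · exact hs1
    · exact hs2 ⟨d, hd⟩

/-- rank conditions are open -/
lemma LO_rank [Fintype ι] [FiniteDimensional k V] (e a : ι → V) (U : Set V) (r : ℕ) :
    LO (fun t : ι → k => r ≤ finrank k
      (LinearMap.range (Y Finset.univ e a t) ⊔ Submodule.span k U : Submodule k V)) := by
  classical
  intro x y hx
  set f := Y Finset.univ e a x with hf
  set f' := Y Finset.univ e a y with hf'
  obtain ⟨b, hb1, hb2, hb3⟩ := exists_linearIndependent k (Set.range f ∪ U)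
  have hspan : Submodule.span k (Set.range f ∪ U) = LinearMap.range f ⊔ Submodule.span k U := by
    rw [Submodule.span_union, ← LinearMap.coe_range, Submodule.span_eq]
  rw [hspan] at hb2
  have hbfin : Finite b := hb3.finite
  have hw : ∀ v : b, ∃ w : V, ∀ s : k, (v : V) + s • w ∈
      (LinearMap.range (Y Finset.univ e a (x + s • y)) ⊔ Submodule.span k U : Submodule k V) := by
    rintro ⟨v, hv⟩
    rcases hb1 hv with ⟨g, rfl⟩ | hU
    · refine ⟨f' g, fun s => Submodule.mem_sup_left ⟨g, ?_⟩⟩
      rw [Y_add, Y_smul]; rfl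
    · refine ⟨0, fun s => Submodule.mem_sup_right ?_⟩
      rw [smul_zero, add_zero]
      exact Submodule.subset_span hU
  choose w hw using hw
  refine (lin_perturb (fun v : b => (v : V)) w hb3).subset ?_
  intro s hs
  rw [Set.mem_ofPred_eq] at hs ⊢
  intro hli
  apply hs
  have hcard : finrank k (LinearMap.range f ⊔ Submodule.span k U : Submodule k V) = Nat.card b := by
    have := Fintype.ofFinite b
    have h2 := finrank_span_eq_card hb3
    rw [Subtype.range_coe, hb2] at h2
    rw [h2, Nat.card_eq_fintype_card]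
  refine hx.trans ?_
  rw [hcard]
  have := Fintype.ofFinite b
  have h3 := finrank_span_eq_card hli
  rw [Nat.card_eq_fintype_card, ← h3]
  apply Submodule.finrank_mono
  rw [Submodule.span_le]
  rintro z ⟨v, rfl⟩
  exact hw v s

end Pool.Agent.Q216.ER
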