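import Pool.Agent.Q216.ER.A4

set_option autoImplicit false

namespace Pool.Agent.Q216.ER

open Module

universe u

variable {k ι : Type*} [Field k] {V : Type u} [AddCommGroup V] [Module k V] [Fintype ι]

/-- the range of the skew map with coefficients `t` -/
def W (e a : ι → V) (t : ι → k) : Submodule k V := LinearMap.range (Y Finset.univ e a t)

/-- the kernel of the skew map with coefficients `t` -/
def N (e a : ι → V) (t : ι → k) : Submodule k (Dual k V) := LinearMap.ker (Y Finset.univ e a t)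

lemma W_eq_zero {e a : ι → V} {t : ι → k} {g : Dual k V} (hg : g ∈ N e a t) {x : V}
    (hx : x ∈ W e a t) : g x = 0 := (Y_skew _ e a t).ker_zero hg hx

lemma mem_W {e a : ι → V} {t : ι → k} {x : V} (h : ∀ g ∈ N e a t, g x = 0) : x ∈ W e a t :=
  (Y_skew _ e a t).mem_range h

lemma mem_N {e a : ι → V} {t : ι → k} {g : Dual k V} (h : ∀ x ∈ W e a t, g x = 0) :
    g ∈ N e a t := (Y_skew _ e a t).mem_ker h

/-- generic coefficients, first condition -/
def P0 (ν : ℕ) (e a : ι → V) (t : ι → k) : Prop :=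
  2 * ν ≤ finrank k (W e a t ⊔ Submodule.span k ∅ : Submodule k V) ∧
    ∀ i, e i ≠ 0 → 2 * ν + 1 ≤ finrank k (W e a t ⊔ Submodule.span k {e i} : Submodule k V)

/-- two lines are related -/
def Rel (k : Type*) [Field k] [Module k V] (ν : ℕ) (e a : ι → V) (i j : ι) : Prop :=
  ∀ t : ι → k, P0 ν e a t → ∀ g ∈ N e a t, ∀ h ∈ N e a t, g (e i) * h (e j) = g (e j) * h (e i)

/-- generic coefficients -/
def P1 (ν : ℕ) (e a : ι → V) (t : ι → k) : Prop :=
  P0 ν e a t ∧ ∀ i j, e i ≠ 0 → e j ≠ 0 → ¬ Rel k ν e a i j →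
    2 * ν + 2 ≤ finrank k (W e a t ⊔ Submodule.span k {e i, e j} : Submodule k V)

/-- the class of a line -/
def col (k : Type*) [Field k] [Module k V] (ν : ℕ) (e a : ι → V) (i : ι) : Set ι :=
  {j | e j ≠ 0 ∧ Rel k ν e a i j}

section fd
variable [FiniteDimensional k V] {ν : ℕ} {e a : ι → V}

lemma LO_P0 : LO (P0 (k := k) ν e a) :=
  LO.and (LO_rank e a ∅ _) (LO.all fun i => LO.imp _ (LO_rank e a {e i} _))

lemma LO_P1 : LO (P1 (k := k) ν e a) :=
  LO.and LO_P0 (LO.all fun i => LO.all fun j => LO.imp _ (LO.imp _ (LO.imp _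
    (LO_rank e a {e i, e j} _))))

variable (hrk : ∀ t : ι → k, finrank k (W e a t) ≤ 2 * ν)
include hrk

lemma P0.rank {t : ι → k} (ht : P0 ν e a t) : 2 * ν ≤ finrank k (W e a t) := by
  have := ht.1
  rwa [Submodule.span_empty, sup_bot_eq] at this

lemma P0.notMem {t : ι → k} (ht : P0 ν e a t) {i : ι} (hi : e i ≠ 0) : e i ∉ W e a t := by
  intro h
  have h1 := ht.2 i hi
  have h2 : W e a t ⊔ Submodule.span k {e i} = W e a t := by
    rw [sup_eq_left, Submodule.span_singleton_le_iff_mem]; exact h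
  rw [h2] at h1
  have := hrk t
  omega

lemma P0.exists_ne {t : ι → k} (ht : P0 ν e a t) {i : ι} (hi : e i ≠ 0) :
    ∃ h ∈ N e a t, h (e i) ≠ 0 := by
  by_contra hcon
  push Not at hcon
  exact ht.notMem hrk hi (mem_W hcon)

lemma P0.perp {t : ι → k} (ht : P0 ν e a t) (i : ι) {g h : Dual k V} (hg : g ∈ N e a t)
    (hh : h ∈ N e a t) : g (e i) * h (a i) = g (a i) * h (e i) :=
  ER.perp e a ν hrk t (ht.rank hrk) i hg hh

omit [FiniteDimensional k V] hrk in
lemma Rel.symm {i j : ι} (h : Rel k ν e a i j) : Rel k ν e a j i :=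
  fun t ht g hg g' hg' => (h t ht g hg g' hg').symm

lemma Rel.trans {i j l : ι} (hj : e j ≠ 0) (h : Rel k ν e a i j) (h' : Rel k ν e a j l) :
    Rel k ν e a i l := by
  intro t ht g hg g' hg'
  obtain ⟨h0, hh0, hne⟩ := ht.exists_ne hrk hj
  have e1 := h t ht g hg h0 hh0
  have e2 := h t ht g' hg' h0 hh0
  have e3 := h' t ht g hg h0 hh0
  have e4 := h' t ht g' hg' h0 hh0
  have e5 := h' t ht g hg g' hg'
  have e6 := h t ht g hg g' hg'
  apply mul_left_cancel₀ hne
  apply mul_left_cancel₀ hne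
  -- g (e i) * h0 (e j) = g (e j) * h0 (e i)
  calc h0 (e j) * (h0 (e j) * (g (e i) * g' (e l)))
      = (g (e i) * h0 (e j)) * (g' (e l) * h0 (e j)) := by ring
    _ = (g (e j) * h0 (e i)) * (g' (e j) * h0 (e l)) := by rw [e1, ← e4]
    _ = (g (e j) * h0 (e l)) * (g' (e j) * h0 (e i)) := by ring
    _ = (g (e l) * h0 (e j)) * (g' (e i) * h0 (e j)) := by rw [e3, ← e2]
    _ = h0 (e j) * (h0 (e j) * (g (e l) * g' (e i))) := by ring

lemma col_eq_iff {i j : ι} (hi : e i ≠ 0) (hj : e j ≠ 0) :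
    col k ν e a i = col k ν e a j ↔ Rel k ν e a i j := by
  constructor
  · intro h
    have : j ∈ col k ν e a j := ⟨hj, fun t _ g _ g' _ => rfl⟩
    rw [← h] at this
    exact this.2
  · intro h
    ext l
    exact ⟨fun hl => ⟨hl.1, (h.symm).trans hrk hi hl.2⟩, fun hl => ⟨hl.1, h.trans hrk hj hl.2⟩⟩

end fd

open Classical in
/-- the span of the lines of a class -/
noncomputable def VC (k : Type*) [Field k] [Module k V] (ν : ℕ) (e a : ι → V) (c : Set ι) :
    Submodule k V :=
  sp e a (Finset.univ.filter fun i => e i ≠ 0 ∧ col k ν e a i = c)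

section fd2
variable [FiniteDimensional k V] {ν : ℕ} {e a : ι → V}
variable (hrk : ∀ t : ι → k, finrank k (W e a t) ≤ 2 * ν)

omit [FiniteDimensional k V] in
lemma VC_e {i : ι} (hi : e i ≠ 0) : e i ∈ VC k ν e a (col k ν e a i) := by
  classical
  exact mem_sp_e _ _ (by simp [hi])

omit [FiniteDimensional k V] in
lemma VC_a {i : ι} (hi : e i ≠ 0) : a i ∈ VC k ν e a (col k ν e a i) := by
  classical
  exact mem_sp_a _ _ (by simp [hi])

omit [FiniteDimensional k V] in
lemma VC_le {c : Set ι} {U : Submodule k V}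
    (h : ∀ i, e i ≠ 0 → col k ν e a i = c → e i ∈ U ∧ a i ∈ U) : VC k ν e a c ≤ U := by
  classical
  apply sp_le
  intro i hi
  rw [Finset.mem_filter] at hi
  exact h i hi.2.1 hi.2.2

include hrk

lemma prop {t : ι → k} (ht : P0 ν e a t) {g h : Dual k V} (hg : g ∈ N e a t)
    (hh : h ∈ N e a t) {i0 : ι} (hi0 : e i0 ≠ 0) {x : V} (hx : x ∈ VC k ν e a (col k ν e a i0)) :
    g x * h (e i0) = g (e i0) * h x := by
  have key : VC k ν e a (col k ν e a i0) ≤
      LinearMap.ker (h (e i0) • g - g (e i0) • h : Dual k V) := by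
    apply VC_le
    intro i hi hc
    have hrel := (col_eq_iff hrk hi hi0).1 hc
    have e1 := hrel t ht g hg h hh
    refine ⟨?_, ?_⟩
    · rw [LinearMap.mem_ker, LinearMap.sub_apply, LinearMap.smul_apply, LinearMap.smul_apply,
        smul_eq_mul, smul_eq_mul, mul_comm, e1, sub_self]
    · obtain ⟨h0, hh0, hne⟩ := ht.exists_ne hrk hi
      have e2 := ht.perp hrk i hg hh0
      have e3 := ht.perp hrk i hh hh0
      rw [LinearMap.mem_ker, LinearMap.sub_apply, LinearMap.smul_apply, LinearMap.smul_apply,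
        smul_eq_mul, smul_eq_mul, sub_eq_zero]
      apply mul_right_cancel₀ hne
      calc h (e i0) * g (a i) * h0 (e i) = h (e i0) * (g (a i) * h0 (e i)) := by ring
        _ = h (e i0) * (g (e i) * h0 (a i)) := by rw [e2]
        _ = (g (e i) * h (e i0)) * h0 (a i) := by ring
        _ = (g (e i0) * h (e i)) * h0 (a i) := by rw [e1]
        _ = g (e i0) * (h (e i) * h0 (a i)) := by ring
        _ = g (e i0) * (h (a i) * h0 (e i)) := by rw [e3]
        _ = g (e i0) * h (a i) * h0 (e i) := by ring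
  have := key hx
  rw [LinearMap.mem_ker, LinearMap.sub_apply, LinearMap.smul_apply, LinearMap.smul_apply,
    smul_eq_mul, smul_eq_mul, sub_eq_zero] at this
  rw [← this, mul_comm]

/-- changing the coefficients of one class does not change the trace on another class -/
lemma change {t t' : ι → k} (ht : P1 ν e a t) (ht' : P0 ν e a t') {c : Set ι} {i0 : ι}
    (hi0 : e i0 ≠ 0) (hc : c ≠ col k ν e a i0) (htt : ∀ i, col k ν e a i ≠ c → t' i = t i) :
    VC k ν e a (col k ν e a i0) ⊓ W e a t ≤ W e a t' := by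
  obtain ⟨g, hg, hgi, hgj⟩ : ∃ g ∈ N e a t, g (e i0) ≠ 0 ∧
      ∀ j, e j ≠ 0 → col k ν e a j = c → g (e j) = 0 := by
    by_cases hex : ∃ j0, e j0 ≠ 0 ∧ col k ν e a j0 = c
    · obtain ⟨j0, hj0, hj0c⟩ := hex
      have hnr : ¬ Rel k ν e a i0 j0 := by
        intro h
        exact hc (by rw [← hj0c, (col_eq_iff hrk hi0 hj0).2 h])
      have h1 := ht.2 i0 j0 hi0 hj0 hnr
      have hnot : e i0 ∉ W e a t ⊔ Submodule.span k {e j0} := by
        intro hmem
        have h2 : W e a t ⊔ Submodule.span k {e i0, e j0} ≤ W e a t ⊔ Submodule.span k {e j0} := by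
          apply sup_le le_sup_left
          rw [Submodule.span_le]
          rintro x (rfl | rfl)
          · exact hmem
          · exact Submodule.mem_sup_right (Submodule.subset_span rfl)
        have h3 := Submodule.finrank_mono h2
        have h4 := Submodule.finrank_add_le_finrank_add_finrank (W e a t)
          (Submodule.span k {e j0})
        rw [finrank_span_singleton hj0] at h4
        have := hrk t
        omega
      obtain ⟨g, hg1, hg2⟩ := sep _ hnot
      have hgN : g ∈ N e a t := mem_N fun x hx => hg2 x (Submodule.mem_sup_left hx)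
      refine ⟨g, hgN, hg1, ?_⟩
      intro j hj hjc
      have hrel : Rel k ν e a j j0 := (col_eq_iff hrk hj hj0).1 (by rw [hjc, hj0c])
      obtain ⟨h0, hh0, hne⟩ := ht.1.exists_ne hrk hj0
      have := hrel t ht.1 g hgN h0 hh0
      rw [hg2 (e j0) (Submodule.mem_sup_right (Submodule.subset_span rfl)), zero_mul] at this
      exact (mul_eq_zero.1 this).resolve_right hne
    · obtain ⟨g, hg, hne⟩ := ht.1.exists_ne hrk hi0
      exact ⟨g, hg, hne, fun j hj hjc => absurd ⟨j, hj, hjc⟩ hex⟩
  have hgN' : g ∈ N e a t' := by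
    have h1 : Y Finset.univ e a t' g = Y Finset.univ e a t g := by
      rw [Y_apply, Y_apply]
      refine Finset.sum_congr rfl fun i _ => ?_
      by_cases hi : e i = 0
      · rw [hi]; simp
      by_cases hic : col k ν e a i = c
      · have h2 := hgj i hi hic
        have h3 : g (a i) = 0 := by
          obtain ⟨h0, hh0, hne⟩ := ht.1.exists_ne hrk hi
          have := ht.1.perp hrk i hg hh0
          rw [h2, zero_mul] at this
          exact (mul_eq_zero.1 this.symm).resolve_right hne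
        rw [h2, h3]; simp
      · rw [htt i hic]
    have h2 : Y Finset.univ e a t g = 0 := hg
    show Y Finset.univ e a t' g = 0
    rw [h1, h2]
  rintro x ⟨hx1, hx2⟩
  apply mem_W
  intro h hh
  have h1 := prop hrk ht' hh hgN' hi0 hx1
  rw [W_eq_zero hg hx2, mul_zero] at h1
  exact (mul_eq_zero.1 h1).resolve_right hgi

lemma VC_inf_W {t : ι → k} (ht : P0 ν e a t) {h : Dual k V} (hh : h ∈ N e a t) {i0 : ι}
    (hi0 : e i0 ≠ 0) (hne : h (e i0) ≠ 0) :
    VC k ν e a (col k ν e a i0) ⊓ LinearMap.ker h ≤ W e a t := by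
  rintro x ⟨hx1, hx2⟩
  apply mem_W
  intro g hg
  have h1 := prop hrk ht hg hh hi0 hx1
  rw [LinearMap.mem_ker.1 hx2, mul_zero] at h1
  exact (mul_eq_zero.1 h1).resolve_right hne

end fd2

end Pool.Agent.Q216.ER
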