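import Pool.Agent.Q216.ER.A5

set_option autoImplicit false

namespace Pool.Agent.Q216.ER

open Module

universe u

variable {k ι : Type*} [Field k] {V : Type u} [AddCommGroup V] [Module k V] [Fintype ι]

open Classical in
/-- mixture of two families of coefficients -/
noncomputable def mix (k : Type*) [Field k] [Module k V] (ν : ℕ) (e a : ι → V)
    (A : Finset (Set ι)) (t s : ι → k) : ι → k :=
  fun i => if col k ν e a i ∈ A then s i else t i

section
variable [FiniteDimensional k V] {ν : ℕ} {e a : ι → V}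

/-- coefficients which are the indicator of a matching -/
lemma W_indicator {J : Finset ι} (hJ : IsM (k := k) e a J) :
    ∃ t : ι → k, W e a t = sp e a J := by
  classical
  refine ⟨fun i => if i ∈ J then 1 else 0, ?_⟩
  set t : ι → k := fun i => if i ∈ J then 1 else 0 with ht
  have hYt : ∀ g, Y Finset.univ e a t g = ∑ i ∈ J, (g (e i) • a i - g (a i) • e i) := by
    intro g
    rw [Y_apply, ← Finset.sum_filter_add_sum_filter_not Finset.univ (fun i => i ∈ J)]
    have h1 : ∑ x ∈ Finset.univ.filter (fun i => i ∉ J), t x • (g (e x) • a x - g (a x) • e x) = 0 := by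
      refine Finset.sum_eq_zero fun x hx => ?_
      rw [Finset.mem_filter] at hx
      simp [ht, hx.2]
    rw [h1, add_zero]
    have h2 : Finset.univ.filter (fun i => i ∈ J) = J := by ext; simp
    rw [h2]
    refine Finset.sum_congr rfl fun x hx => ?_
    simp [ht, hx]
  apply le_antisymm
  · rintro x ⟨g, rfl⟩
    rw [hYt]
    refine Submodule.sum_mem _ fun i hi => ?_
    exact Submodule.sub_mem _ (Submodule.smul_mem _ _ (mem_sp_a _ _ hi))
      (Submodule.smul_mem _ _ (mem_sp_e _ _ hi))
  · have hli : LinearIndependent k (Sum.elim (fun i : J => e i) (fun i : J => a i)) := by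
      rw [linearIndependent_iff_card_le_finrank_span]
      have h1 : Set.range (Sum.elim (fun i : J => e i) (fun i : J => a i)) = e '' J ∪ a '' J := by
        rw [Set.Sum.elim_range]
        congr 1
        · ext x; simp
        · ext x; simp
      rw [h1, Fintype.card_sum, Fintype.card_coe]
      unfold IsM sp at hJ
      unfold Set.finrank
      omega
    rw [Fintype.linearIndependent_iff] at hli
    apply sp_le
    have hkill : ∀ g ∈ N e a t, ∀ i ∈ J, g (e i) = 0 ∧ g (a i) = 0 := by
      intro g hg i hi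
      have h2 : Y Finset.univ e a t g = 0 := hg
      rw [hYt] at h2
      have h3 := hli (Sum.elim (fun i : J => - g (a i)) (fun i : J => g (e i))) (by
        rw [Fintype.sum_sum_type]
        simp only [Sum.elim_inl, Sum.elim_inr]
        rw [← h2, ← Finset.sum_coe_sort J (fun i => g (e i) • a i - g (a i) • e i),
          ← Finset.sum_add_distrib]
        refine Finset.sum_congr rfl fun x _ => ?_
        module)
      have h4 := h3 (Sum.inl ⟨i, hi⟩)
      have h5 := h3 (Sum.inr ⟨i, hi⟩)
      simp only [Sum.elim_inl, Sum.elim_inr, neg_eq_zero] at h4 h5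
      exact ⟨h5, h4⟩
    intro i hi
    exact ⟨mem_W fun g hg => (hkill g hg i hi).1, mem_W fun g hg => (hkill g hg i hi).2⟩

variable (hrk : ∀ t : ι → k, finrank k (W e a t) ≤ 2 * ν)
variable (H0 : ∀ x : V, x ≠ 0 → ∃ J : Finset ι, IsM (k := k) e a J ∧ J.card = ν ∧
  x ∉ sp (k := k) e a J)

lemma finrank_sup_lt (U : Submodule k V) {x : V} (hx : x ∉ U) :
    finrank k U + 1 ≤ finrank k (U ⊔ Submodule.span k {x} : Submodule k V) := by
  apply Submodule.finrank_lt_finrank_of_lt
  refine lt_of_le_of_ne le_sup_left ?_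
  intro h
  apply hx
  rw [h]
  exact Submodule.mem_sup_right (Submodule.subset_span rfl)

include hrk H0

omit hrk in
lemma exists_avoid {x : V} (hx : x ≠ 0) : ∃ t : ι → k, 2 * ν ≤ finrank k (W e a t) ∧
    2 * ν + 1 ≤ finrank k (W e a t ⊔ Submodule.span k {x} : Submodule k V) := by
  obtain ⟨J, h1, h2, h3⟩ := H0 x hx
  obtain ⟨t, ht⟩ := W_indicator h1
  have h4 : 2 * ν ≤ finrank k (W e a t) := by
    rw [ht, ← h2]; exact h1
  refine ⟨t, h4, ?_⟩
  have h5 := finrank_sup_lt (W e a t) (x := x) (by rw [ht]; exact h3)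
  omega

/-- the key avoidance statement -/
lemma avoid [Infinite k] {t : ι → k} (ht : P1 ν e a t) {i0 : ι} (hi0 : e i0 ≠ 0) {x : V}
    (hx : x ∈ VC k ν e a (col k ν e a i0)) (hx0 : x ≠ 0) :
    ∃ t' : ι → k, P1 ν e a t' ∧ (∀ i, col k ν e a i ≠ col k ν e a i0 → t' i = t i) ∧
      x ∉ W e a t' := by
  classical
  have hLO1 : ∀ A : Finset (Set ι), LO (fun s : ι → k => P1 ν e a (mix k ν e a A t s)) := by
    intro A
    refine LO.comp LO_P1 (mix k ν e a A t) (fun s i => if col k ν e a i ∈ A then s i else 0) ?_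
    intro p q s
    ext i
    simp only [mix, Pi.add_apply, Pi.smul_apply, smul_eq_mul]
    split_ifs <;> simp
  have hLO2 := LO_rank e a ({x} : Set V) (2 * ν + 1) (k := k)
  obtain ⟨z, -, hz⟩ := exists_avoid H0 hx0
  obtain ⟨s, hs1, hs2⟩ := LO.exists_and (LO.all hLO1) hLO2 (x := t) (z := z)
    (fun A => by
      have : mix k ν e a A t t = t := by ext i; simp [mix]
      rw [this]; exact ht) hz
  refine ⟨mix k ν e a {col k ν e a i0} t s, hs1 _, ?_, ?_⟩
  · intro i hi
    simp [mix, hi]
  · have hxs : x ∉ W e a s := by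
      intro h
      have h2 : W e a s ⊔ Submodule.span k {x} = W e a s := by
        rw [sup_eq_left, Submodule.span_singleton_le_iff_mem]; exact h
      have h3 : 2 * ν + 1 ≤ finrank k (W e a s ⊔ Submodule.span k {x} : Submodule k V) := hs2
      rw [h2] at h3
      have := hrk s
      omega
    have key : ∀ A : Finset (Set ι), col k ν e a i0 ∉ A →
        x ∉ W e a (mix k ν e a (insert (col k ν e a i0) A) t s) →
        x ∉ W e a (mix k ν e a {col k ν e a i0} t s) := by
      intro A
      induction A using Finset.induction_on with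
      | empty => intro _ h; exact h
      | insert c A hc ih =>
        intro h1 h2
        rw [Finset.mem_insert, not_or] at h1
        apply ih h1.2
        intro h3
        apply h2
        refine change hrk (hs1 (insert (col k ν e a i0) A)) (hs1 _).1 (c := c) hi0
          (fun h => h1.1 h.symm) ?_ ⟨hx, h3⟩
        intro i hi
        simp only [mix, Finset.mem_insert]
        have : (col k ν e a i = col k ν e a i0 ∨ col k ν e a i = c ∨ col k ν e a i ∈ A) ↔
            (col k ν e a i = col k ν e a i0 ∨ col k ν e a i ∈ A) := by tauto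
        simp only [this]
    have huniv : insert (col k ν e a i0) (Finset.univ.erase (col k ν e a i0)) =
        (Finset.univ : Finset (Set ι)) := Finset.insert_erase (Finset.mem_univ _)
    apply key (Finset.univ.erase (col k ν e a i0)) (Finset.notMem_erase _ _)
    rw [huniv]
    have : mix k ν e a Finset.univ t s = s := by ext i; simp [mix]
    rw [this]
    exact hxs

omit H0 hrk in
lemma finrank_inf_ker (U : Submodule k V) (h : Dual k V) :
    finrank k U ≤ finrank k (U ⊓ LinearMap.ker h : Submodule k V) + 1 := by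
  have h1 := finrank_map_add h U
  have h2 : finrank k (U.map h) ≤ 1 := by
    have := Submodule.finrank_le (U.map h)
    rwa [finrank_self] at this
  omega

omit H0 hrk in
lemma finrank_inf_ker' (U : Submodule k V) (h : Dual k V) {x : V} (hx : x ∈ U) (hne : h x ≠ 0) :
    finrank k (U ⊓ LinearMap.ker h : Submodule k V) + 1 ≤ finrank k U := by
  apply Submodule.finrank_lt_finrank_of_lt
  refine lt_of_le_of_ne inf_le_left ?_
  intro heq
  have : x ∈ U ⊓ LinearMap.ker h := by rw [heq]; exact hx
  exact hne this.2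

omit H0 in
lemma change_eq {t t' : ι → k} (ht : P1 ν e a t) (ht' : P1 ν e a t') {i0 : ι}
    (htt : ∀ i, col k ν e a i ≠ col k ν e a i0 → t' i = t i) {c : Set ι}
    (hc : c ≠ col k ν e a i0) : VC k ν e a c ⊓ W e a t = VC k ν e a c ⊓ W e a t' := by
  by_cases hex : ∃ j, e j ≠ 0 ∧ col k ν e a j = c
  · obtain ⟨j, hj, rfl⟩ := hex
    apply le_antisymm
    · exact le_inf inf_le_left (change hrk ht ht'.1 hj (Ne.symm hc) htt)
    · exact le_inf inf_le_left (change hrk ht' ht.1 hj (Ne.symm hc) (fun i hi => (htt i hi).symm))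
  · have : VC k ν e a c = ⊥ := by
      rw [eq_bot_iff]
      apply VC_le
      intro i hi hic
      exact absurd ⟨i, hi, hic⟩ hex
    rw [this, bot_inf_eq, bot_inf_eq]

open Classical in
/-- the partly specialised space -/
noncomputable def M (ν : ℕ) (e a : ι → V) (f : Dual k V) (A : Finset (Set ι)) (t : ι → k) :
    Submodule k V :=
  ⨆ c : Set ι, if c ∈ A then VC k ν e a c ⊓ LinearMap.ker f else VC k ν e a c ⊓ W e a t

lemma M_rank [Infinite k] (f : Dual k V) (A : Finset (Set ι)) :
    (∀ c ∈ A, ∃ x ∈ VC k ν e a c, f x ≠ 0) → ∀ t : ι → k, P1 ν e a t →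
    finrank k (M ν e a f A t) ≤ 2 * ν := by
  classical
  induction A using Finset.induction_on with
  | empty =>
    intro _ t ht
    refine le_trans (Submodule.finrank_mono ?_) (hrk t)
    apply iSup_le
    intro c
    rw [if_neg (Finset.notMem_empty c)]
    exact inf_le_right
  | insert m A hm ih =>
    intro hA t ht
    have ih' := ih fun c hc => hA c (Finset.mem_insert_of_mem hc)
    obtain ⟨y, hy, hfy⟩ := hA m (Finset.mem_insert_self _ _)
    obtain ⟨i0, hi0, rfl⟩ : ∃ i0, e i0 ≠ 0 ∧ col k ν e a i0 = m := by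
      by_contra hex
      have : VC k ν e a m = ⊥ := by
        rw [eq_bot_iff]
        apply VC_le
        intro i hi hic
        exact absurd ⟨i, hi, hic⟩ hex
      rw [this, Submodule.mem_bot] at hy
      rw [hy, map_zero] at hfy
      exact hfy rfl
    set c0 := col k ν e a i0 with hc0
    -- the part of the other classes
    let R : (ι → k) → Submodule k V := fun t => ⨆ c : Set ι, if c = c0 then ⊥ else
      if c ∈ A then VC k ν e a c ⊓ LinearMap.ker f else VC k ν e a c ⊓ W e a t
    have hM1 : ∀ t, M ν e a f A t = (VC k ν e a c0 ⊓ W e a t) ⊔ R t := by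
      intro t
      apply le_antisymm
      · apply iSup_le
        intro c
        by_cases hc : c = c0
        · rw [hc, if_neg hm]; exact le_sup_left
        · refine le_trans ?_ le_sup_right
          refine le_trans ?_ (le_iSup _ c)
          rw [if_neg hc]
      · apply sup_le
        · refine le_trans ?_ (le_iSup _ c0)
          rw [if_neg hm]
        · apply iSup_le
          intro c
          by_cases hc : c = c0
          · rw [if_pos hc]; exact bot_le
          · rw [if_neg hc]
            exact le_iSup (fun c => if c ∈ A then VC k ν e a c ⊓ LinearMap.ker f else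
              VC k ν e a c ⊓ W e a t) c
    have hM2 : ∀ t, M ν e a f (insert c0 A) t ≤ (VC k ν e a c0 ⊓ LinearMap.ker f) ⊔ R t := by
      intro t
      apply iSup_le
      intro c
      by_cases hc : c = c0
      · rw [hc, if_pos (Finset.mem_insert_self _ _)]; exact le_sup_left
      · refine le_trans ?_ le_sup_right
        refine le_trans ?_ (le_iSup _ c)
        rw [if_neg hc]
        have : c ∈ insert c0 A ↔ c ∈ A := by simp [hc]
        simp only [this, le_refl]
    refine le_trans (Submodule.finrank_mono (hM2 t)) ?_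
    -- codimension one
    have hcod : ∀ t : ι → k, P1 ν e a t → ∃ h : Dual k V, h (e i0) ≠ 0 ∧ h ∈ N e a t ∧
        VC k ν e a c0 ⊓ LinearMap.ker h ≤ VC k ν e a c0 ⊓ W e a t := by
      intro t ht
      obtain ⟨h, hh, hne⟩ := ht.1.exists_ne hrk hi0
      exact ⟨h, hne, hh, le_inf inf_le_left (VC_inf_W hrk ht.1 hh hi0 hne)⟩
    by_cases hbot : VC k ν e a c0 ⊓ R t = ⊥
    · obtain ⟨h, hne, hh, hle⟩ := hcod t ht
      have h1 := Submodule.finrank_add_le_finrank_add_finrank
        (VC k ν e a c0 ⊓ LinearMap.ker f) (R t)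
      have h2 := finrank_inf_ker' (VC k ν e a c0) f hy hfy
      have h3 := finrank_inf_ker (VC k ν e a c0) h
      have h4 := Submodule.finrank_mono hle
      have h5 := Submodule.finrank_sup_add_finrank_inf_eq (VC k ν e a c0 ⊓ W e a t) (R t)
      have h6 : (VC k ν e a c0 ⊓ W e a t) ⊓ R t = ⊥ := by
        rw [eq_bot_iff, ← hbot]
        exact inf_le_inf_right _ inf_le_left
      rw [h6, finrank_bot, ← hM1] at h5
      have h7 := ih' t ht
      omega
    · obtain ⟨x, ⟨hx1, hx2⟩, hx0⟩ := Submodule.exists_mem_ne_zero_of_ne_bot hbot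
      obtain ⟨t', ht', htt, hxW⟩ := avoid hrk H0 ht hi0 hx1 hx0
      have hR : R t' = R t := by
        apply le_antisymm <;> apply iSup_mono <;> intro c
        · by_cases hc : c = c0
          · rw [if_pos hc, if_pos hc]
          · rw [if_neg hc, if_neg hc, change_eq hrk ht ht' htt hc]
        · by_cases hc : c = c0
          · rw [if_pos hc, if_pos hc]
          · rw [if_neg hc, if_neg hc, change_eq hrk ht ht' htt hc]
      obtain ⟨h, hne, hh, hle⟩ := hcod t' ht'
      have hhx : h x ≠ 0 := by
        intro h0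
        exact hxW (hle ⟨hx1, h0⟩).2
      refine le_trans (Submodule.finrank_mono ?_) (ih' t' ht')
      rw [hM1, hR]
      refine sup_le ?_ le_sup_right
      rintro w ⟨hw1, -⟩
      have hw : w = (w - (h w * (h x)⁻¹) • x) + (h w * (h x)⁻¹) • x := by abel
      rw [hw]
      refine Submodule.add_mem _ (Submodule.mem_sup_left (hle ⟨?_, ?_⟩))
        (Submodule.mem_sup_right (Submodule.smul_mem _ _ hx2))
      · exact Submodule.sub_mem _ hw1 (Submodule.smul_mem _ _ hx1)
      · rw [SetLike.mem_coe, LinearMap.mem_ker, map_sub, map_smul, smul_eq_mul, mul_assoc,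
          inv_mul_cancel₀ hhx, mul_one, sub_self]

lemma exists_P1 [Infinite k] (hV : ∃ x : V, x ≠ 0) : ∃ t : ι → k, P1 ν e a t := by
  classical
  obtain ⟨x0, hx0⟩ := hV
  obtain ⟨t0, ht0, -⟩ := exists_avoid H0 hx0
  have h1 : ∃ t : ι → k, P0 ν e a t := by
    obtain ⟨t1, ht1⟩ : ∃ t : ι → k, ∀ i, e i ≠ 0 →
        2 * ν + 1 ≤ finrank k (W e a t ⊔ Submodule.span k {e i} : Submodule k V) := by
      refine LO.exists_all (P := fun i (t : ι → k) => e i ≠ 0 →
        2 * ν + 1 ≤ finrank k (W e a t ⊔ Submodule.span k {e i} : Submodule k V))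
        (fun i => LO.imp _ (LO_rank e a {e i} _)) ?_
      intro i
      by_cases hi : e i = 0
      · exact ⟨0, fun h => absurd hi h⟩
      · obtain ⟨t, -, ht⟩ := exists_avoid H0 hi
        exact ⟨t, fun _ => ht⟩
    refine LO.exists_and (LO_rank e a ∅ _) (LO.all fun i => LO.imp _ (LO_rank e a {e i} _))
      (x := t0) (z := t1) ?_ ht1
    show 2 * ν ≤ finrank k (W e a t0 ⊔ Submodule.span k ∅ : Submodule k V)
    rw [Submodule.span_empty, sup_bot_eq]
    exact ht0
  obtain ⟨t2, ht2⟩ := h1
  have h3 : ∃ t : ι → k, ∀ p : ι × ι, e p.1 ≠ 0 → e p.2 ≠ 0 → ¬ Rel k ν e a p.1 p.2 →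
      2 * ν + 2 ≤ finrank k (W e a t ⊔ Submodule.span k {e p.1, e p.2} : Submodule k V) := by
    refine LO.exists_all (P := fun (p : ι × ι) (t : ι → k) => e p.1 ≠ 0 → e p.2 ≠ 0 →
      ¬ Rel k ν e a p.1 p.2 →
      2 * ν + 2 ≤ finrank k (W e a t ⊔ Submodule.span k {e p.1, e p.2} : Submodule k V))
      (fun p => LO.imp _ (LO.imp _ (LO.imp _ (LO_rank e a {e p.1, e p.2} _)))) ?_
    rintro ⟨i, j⟩
    by_cases hr : Rel k ν e a i j
    · exact ⟨0, fun _ _ h => absurd hr h⟩
    by_cases hi : e i = 0
    · exact ⟨0, fun h => absurd hi h⟩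
    have hr' := hr
    unfold Rel at hr
    push Not at hr
    obtain ⟨t, ht, g, hg, h, hh, hne⟩ := hr
    refine ⟨t, fun _ _ _ => ?_⟩
    have h4 := ht.2 i hi
    have h5 : e j ∉ W e a t ⊔ Submodule.span k {e i} := by
      intro hmem
      obtain ⟨w, hw, v, hv, hwv⟩ := Submodule.mem_sup.1 hmem
      obtain ⟨c, rfl⟩ := Submodule.mem_span_singleton.1 hv
      apply hne
      rw [← hwv, map_add, map_add, W_eq_zero hg hw, W_eq_zero hh hw, map_smul, map_smul,
        smul_eq_mul, smul_eq_mul]
      ring
    have h6 := finrank_sup_lt _ h5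
    have h7 : W e a t ⊔ Submodule.span k {e i} ⊔ Submodule.span k {e j} ≤
        W e a t ⊔ Submodule.span k {e i, e j} := by
      refine sup_le (sup_le le_sup_left ?_) ?_
      · exact le_sup_of_le_right (Submodule.span_mono (by simp))
      · exact le_sup_of_le_right (Submodule.span_mono (by simp))
    have h8 := Submodule.finrank_mono h7
    show 2 * ν + 2 ≤ finrank k (W e a t ⊔ Submodule.span k {e i, e j} : Submodule k V)
    omega
  obtain ⟨t3, ht3⟩ := h3
  obtain ⟨t, h4, h5⟩ := LO.exists_and (LO_P0 (k := k) (ν := ν) (e := e) (a := a))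
    (LO.all (P := fun (p : ι × ι) (t : ι → k) => e p.1 ≠ 0 → e p.2 ≠ 0 →
      ¬ Rel k ν e a p.1 p.2 →
      2 * ν + 2 ≤ finrank k (W e a t ⊔ Submodule.span k {e p.1, e p.2} : Submodule k V))
      fun p => LO.imp _ (LO.imp _ (LO.imp _ (LO_rank e a {e p.1, e p.2} _)))) ht2 ht3
  exact ⟨t, h4, fun i j => h5 (i, j)⟩

/-- the points of the lines in the kernel of a functional span little -/
theorem main_infinite [Infinite k] (f : Dual k V) :
    finrank k (Submodule.span k {x : V | ∃ i, f (e i) ≠ 0 ∧
      x = f (e i) • a i - f (a i) • e i}) ≤ 2 * ν := by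
  classical
  by_cases hV : ∃ x : V, x ≠ 0
  swap
  · push Not at hV
    have : (Submodule.span k {x : V | ∃ i, f (e i) ≠ 0 ∧
      x = f (e i) • a i - f (a i) • e i}) = ⊥ := by
      rw [eq_bot_iff]
      intro x _
      rw [hV x]
      exact Submodule.zero_mem _
    rw [this, finrank_bot]
    exact Nat.zero_le _
  obtain ⟨t, ht⟩ := exists_P1 hrk H0 hV
  let A : Finset (Set ι) := Finset.univ.filter fun c => ∃ x ∈ VC k ν e a c, f x ≠ 0
  have h1 := M_rank hrk H0 f A (fun c hc => (Finset.mem_filter.1 hc).2) t ht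
  refine le_trans (Submodule.finrank_mono ?_) h1
  rw [Submodule.span_le]
  rintro x ⟨i, hi, rfl⟩
  have hei : e i ≠ 0 := by
    rintro h
    rw [h, map_zero] at hi
    exact hi rfl
  have hA : col k ν e a i ∈ A := by
    rw [Finset.mem_filter]
    exact ⟨Finset.mem_univ _, e i, VC_e hei, hi⟩
  have h2 : VC k ν e a (col k ν e a i) ⊓ LinearMap.ker f ≤ M ν e a f A t := by
    refine le_trans ?_ (le_iSup _ (col k ν e a i))
    rw [if_pos hA]
  apply h2
  refine ⟨Submodule.sub_mem _ (Submodule.smul_mem _ _ (VC_a hei))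
    (Submodule.smul_mem _ _ (VC_e hei)), ?_⟩
  rw [SetLike.mem_coe, LinearMap.mem_ker, map_sub, map_smul, map_smul, smul_eq_mul, smul_eq_mul]
  ring

end

end Pool.Agent.Q216.ER
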