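import Pool.Agent.Q216.ER.A6

set_option autoImplicit false

namespace Pool.Agent.Q216.ER

open Module

universe u

section
variable {k V ι : Type*} [Field k] [AddCommGroup V] [Module k V] [FiniteDimensional k V]

omit [FiniteDimensional k V] in
lemma isM_iff {e a : ι → V} {J : Finset ι} :
    IsM (k := k) e a J ↔ LinearIndependent k (Sum.elim (fun i : J => e i) (fun i : J => a i)) := by
  classical
  rw [linearIndependent_iff_card_le_finrank_span]
  have h1 : Set.range (Sum.elim (fun i : J => e i) (fun i : J => a i)) = e '' J ∪ a '' J := by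
    rw [Set.Sum.elim_range]
    congr 1
    · ext x; simp
    · ext x; simp
  rw [h1, Fintype.card_sum, Fintype.card_coe]
  unfold IsM sp Set.finrank
  rw [two_mul]

end

section base
variable {F : Type*} [Field F] (k : Type*) [Field k] [Algebra F k] {n : ℕ}

/-- extension of scalars of a vector -/
def ext (x : Fin n → F) : Fin n → k := fun l => algebraMap F k (x l)

lemma ext_add (x y : Fin n → F) : ext k (x + y) = ext k x + ext k y := by
  funext l; simp [ext]

lemma ext_smul (c : F) (x : Fin n → F) : ext k (c • x) = algebraMap F k c • ext k x := by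
  funext l; simp [ext]

/-- coordinatewise application of a functional -/
def desc (lam : k →ₗ[F] F) (x : Fin n → k) : Fin n → F := fun l => lam (x l)

lemma desc_smul_ext (lam : k →ₗ[F] F) (r : k) (x : Fin n → F) :
    desc k lam (r • ext k x) = lam r • x := by
  funext l
  simp only [desc, ext, Pi.smul_apply, smul_eq_mul]
  rw [mul_comm, ← Algebra.smul_def, map_smul, smul_eq_mul, mul_comm]

lemma ext_indep {β : Type*} [Finite β] (w : β → Fin n → F) :
    LinearIndependent k (fun j => ext k (w j)) ↔ LinearIndependent F w := by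
  have := Fintype.ofFinite β
  rw [Fintype.linearIndependent_iff, Fintype.linearIndependent_iff]
  constructor
  · intro h c hc i
    have h1 := h (fun j => algebraMap F k (c j)) (by
      have h2 : ∑ j, algebraMap F k (c j) • ext k (w j) = ext k (∑ j, c j • w j) := by
        funext l
        simp [ext, Finset.sum_apply, Algebra.smul_def]
      rw [h2, hc]
      funext l; simp [ext])
    exact (map_eq_zero (algebraMap F k)).1 (h1 i)
  · intro h r hr i
    rw [← Module.forall_dual_apply_eq_zero_iff F]
    intro lam
    have h1 : ∑ j, lam (r j) • w j = 0 := by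
      have h2 : desc k lam (∑ j, r j • ext k (w j)) = ∑ j, lam (r j) • w j := by
        simp only [← desc_smul_ext]
        funext l
        simp [desc, Finset.sum_apply]
      rw [← h2, hr]
      funext l; simp [desc]
    exact h (fun j => lam (r j)) h1 i

lemma ext_isM {ι : Type*} {e a : ι → Fin n → F} {J : Finset ι} :
    IsM (k := k) (fun i => ext k (e i)) (fun i => ext k (a i)) J ↔ IsM (k := F) e a J := by
  have : (fun j => ext k ((Sum.elim (fun i : J => e i) (fun i : J => a i)) j)) =
      Sum.elim (fun i : J => ext k (e i)) (fun i : J => ext k (a i)) := by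
    funext j
    rcases j with j | j <;> rfl
  rw [isM_iff, isM_iff, ← ext_indep k (Sum.elim (fun i : J => e i) (fun i : J => a i)), this]

lemma desc_mem {ι : Type*} {e a : ι → Fin n → F} {J : Finset ι} {x : Fin n → k}
    (hx : x ∈ sp (k := k) (fun i => ext k (e i)) (fun i => ext k (a i)) J) :
    ∀ lam : k →ₗ[F] F, desc k lam x ∈ sp (k := F) e a J := by
  unfold sp at hx
  induction hx using Submodule.span_induction with
  | mem x hx =>
    intro lam
    rcases hx with ⟨i, hi, rfl⟩ | ⟨i, hi, rfl⟩
    · have := desc_smul_ext k lam 1 (e i)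
      rw [one_smul] at this
      show desc k lam (ext k (e i)) ∈ _
      rw [this]
      exact Submodule.smul_mem _ _ (mem_sp_e _ _ hi)
    · have := desc_smul_ext k lam 1 (a i)
      rw [one_smul] at this
      show desc k lam (ext k (a i)) ∈ _
      rw [this]
      exact Submodule.smul_mem _ _ (mem_sp_a _ _ hi)
  | zero =>
    intro lam
    have : desc k lam (0 : Fin n → k) = 0 := by funext l; simp [desc]
    rw [this]; exact Submodule.zero_mem _
  | add x y _ _ hx hy =>
    intro lam
    have : desc k lam (x + y) = desc k lam x + desc k lam y := by funext l; simp [desc]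
    rw [this]; exact Submodule.add_mem _ (hx lam) (hy lam)
  | smul r x _ hx =>
    intro lam
    have : desc k lam (r • x) = desc k (lam ∘ₗ (LinearMap.mulLeft F r)) x := by
      funext l; simp [desc]
    rw [this]; exact hx _

end base

/-- the case without critical vectors, in coordinates -/
lemma case_zero_coord {F ι : Type*} [Field F] [Fintype ι] {n : ℕ} (e a : ι → Fin n → F) (ν : ℕ)
    (hν : ∀ J : Finset ι, IsM (k := F) e a J → J.card ≤ ν)
    (H0 : ∀ x : Fin n → F, x ≠ 0 → ∃ J : Finset ι, IsM (k := F) e a J ∧ J.card = ν ∧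
      x ∉ sp (k := F) e a J) (f : Dual F (Fin n → F)) :
    finrank F (Submodule.span F {x : Fin n → F | ∃ i, f (e i) ≠ 0 ∧
      x = f (e i) • a i - f (a i) • e i}) ≤ 2 * ν := by
  classical
  let k := AlgebraicClosure F
  have hrk : ∀ t : ι → k, finrank k (W (fun i => ext k (e i)) (fun i => ext k (a i)) t) ≤ 2 * ν := by
    intro t
    obtain ⟨J, -, h2, h3⟩ := exists_matching (k := k) (Finset.univ : Finset ι) (Fin n → k)
      (fun i => ext k (e i)) (fun i => ext k (a i)) t
    have h4 := hν J ((ext_isM k).1 h2)
    unfold W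
    omega
  have H0' : ∀ x : Fin n → k, x ≠ 0 → ∃ J : Finset ι,
      IsM (k := k) (fun i => ext k (e i)) (fun i => ext k (a i)) J ∧ J.card = ν ∧
      x ∉ sp (k := k) (fun i => ext k (e i)) (fun i => ext k (a i)) J := by
    intro x hx
    obtain ⟨l, hl⟩ := Function.ne_iff.1 hx
    obtain ⟨lam, hlam⟩ : ∃ lam : k →ₗ[F] F, lam (x l) ≠ 0 := by
      by_contra hcon
      push Not at hcon
      exact hl ((Module.forall_dual_apply_eq_zero_iff F _).1 hcon)
    obtain ⟨J, h1, h2, h3⟩ := H0 (desc k lam x) (by
      intro h
      exact hlam (congrFun h l))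
    exact ⟨J, (ext_isM k).2 h1, h2, fun h => h3 (desc_mem k h lam)⟩
  -- the extended functional
  let f' : Dual k (Fin n → k) :=
    Fintype.linearCombination k (fun l => algebraMap F k (f (Pi.single l 1)))
  have hf' : ∀ x : Fin n → F, f' (ext k x) = algebraMap F k (f x) := by
    intro x
    have h1 : x = ∑ l, x l • (Pi.single l (1 : F) : Fin n → F) := by
      exact (pi_eq_sum_univ' x).trans (Finset.sum_congr rfl fun l _ => by congr 1)
    conv_rhs => rw [h1, map_sum, map_sum]
    simp only [f', Fintype.linearCombination_apply, ext, map_smul, smul_eq_mul, map_mul]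
  have hmain := main_infinite hrk H0' f'
  refine le_trans ?_ hmain
  obtain ⟨b, hb1, hb2, hb3⟩ := exists_linearIndependent F {x : Fin n → F | ∃ i, f (e i) ≠ 0 ∧
      x = f (e i) • a i - f (a i) • e i}
  have hfin : Finite b := hb3.finite
  have := Fintype.ofFinite b
  have h2 := finrank_span_eq_card hb3
  rw [Subtype.range_coe, hb2] at h2
  rw [h2]
  have h3 := (ext_indep k (fun v : b => (v : Fin n → F))).2 hb3
  rw [← finrank_span_eq_card h3]
  apply Submodule.finrank_mono
  rw [Submodule.span_le]
  rintro x ⟨⟨v, hv⟩, rfl⟩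
  obtain ⟨i, hi, rfl⟩ := hb1 hv
  apply Submodule.subset_span
  refine ⟨i, ?_, ?_⟩
  · rw [hf']
    exact (map_ne_zero _).2 hi
  · rw [hf', hf']
    funext l
    simp [ext, Algebra.smul_def]

/-- the case without critical vectors -/
lemma case_zero {F ι : Type*} [Field F] [Fintype ι] {V : Type*} [AddCommGroup V] [Module F V]
    [FiniteDimensional F V] (e a : ι → V) (ν : ℕ)
    (hν : ∀ J : Finset ι, IsM (k := F) e a J → J.card ≤ ν)
    (H0 : ∀ x : V, x ≠ 0 → ∃ J : Finset ι, IsM (k := F) e a J ∧ J.card = ν ∧
      x ∉ sp (k := F) e a J) (f : Dual F V) :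
    finrank F (Submodule.span F {x : V | ∃ i, f (e i) ≠ 0 ∧
      x = f (e i) • a i - f (a i) • e i}) ≤ 2 * ν := by
  classical
  let b := (Module.finBasis F V).equivFun
  have hsp : ∀ J : Finset ι, sp (k := F) (fun i => b (e i)) (fun i => b (a i)) J =
      (sp (k := F) e a J).map b.toLinearMap := fun J => (map_sp b.toLinearMap e a J).symm
  have hM : ∀ J : Finset ι, IsM (k := F) (fun i => b (e i)) (fun i => b (a i)) J ↔
      IsM (k := F) e a J := by
    intro J
    unfold IsM
    rw [hsp, LinearEquiv.finrank_map_eq]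
  have h1 := case_zero_coord (fun i => b (e i)) (fun i => b (a i)) ν
    (fun J hJ => hν J ((hM J).1 hJ)) (fun x hx => by
      obtain ⟨J, h1, h2, h3⟩ := H0 (b.symm x) (by simpa using hx)
      refine ⟨J, (hM J).2 h1, h2, ?_⟩
      rw [hsp]
      rintro ⟨y, hy, hyx⟩
      apply h3
      rw [← hyx]
      simpa using hy) (f ∘ₗ b.symm.toLinearMap)
  have hset : (Submodule.span F {x : V | ∃ i, f (e i) ≠ 0 ∧
      x = f (e i) • a i - f (a i) • e i}).map b.toLinearMap =
      Submodule.span F {x : Fin (finrank F V) → F | ∃ i, (f ∘ₗ b.symm.toLinearMap) (b (e i)) ≠ 0 ∧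
        x = (f ∘ₗ b.symm.toLinearMap) (b (e i)) • b (a i) -
          (f ∘ₗ b.symm.toLinearMap) (b (a i)) • b (e i)} := by
    rw [Submodule.map_span]
    congr 1
    apply Set.ext
    intro x
    constructor
    · rintro ⟨y, ⟨i, hi, rfl⟩, rfl⟩
      refine ⟨i, by simpa using hi, by simp⟩
    · rintro ⟨i, hi, rfl⟩
      refine ⟨f (e i) • a i - f (a i) • e i, ⟨i, by simpa using hi, rfl⟩, by simp⟩
  refine le_trans (le_of_eq ?_) h1
  rw [← hset]
  exact (LinearEquiv.finrank_map_eq b _).symm

end Pool.Agent.Q216.ER
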