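import Pool.Agent.Q216.ER.A7

set_option autoImplicit false

namespace Pool.Agent.Q216.ER

open Module

universe u

variable {F ι : Type*} [Field F]

lemma exists_dual_one {V : Type*} [AddCommGroup V] [Module F V] {e : ι → V} {G : Finset ι}
    (hG : ∀ c : ι → F, ∑ i ∈ G, c i • e i = 0 → ∀ i ∈ G, c i = 0) :
    ∃ f : Dual F V, ∀ i ∈ G, f (e i) = 1 := by
  classical
  have hli : LinearIndependent F (fun i : G => e i) := by
    rw [Fintype.linearIndependent_iff]
    intro c hc i
    have h1 := hG (fun i => if h : i ∈ G then c ⟨i, h⟩ else 0) (by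
      rw [← hc, ← Finset.sum_coe_sort G
        (fun i => (if h : i ∈ G then c ⟨i, h⟩ else 0) • e i)]
      refine Finset.sum_congr rfl fun x _ => ?_
      rw [dif_pos x.2]) i i.2
    rw [dif_pos i.2] at h1
    exact h1
  obtain ⟨φ, hφ⟩ := LinearMap.exists_leftInverse_of_injective
    (Fintype.linearCombination F (fun i : G => e i)) (by
      rw [LinearMap.ker_eq_bot]
      exact linearIndependent_iff_injective_fintypeLinearCombination.1 hli)
  refine ⟨(Fintype.linearCombination F (fun _ : G => (1 : F))) ∘ₗ φ, ?_⟩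
  intro i hi
  have h1 := congrArg (fun p => p (Pi.single (⟨i, hi⟩ : G) (1 : F))) hφ
  simp only [LinearMap.comp_apply, LinearMap.id_apply] at h1
  rw [Fintype.linearCombination_apply_single, one_smul] at h1
  rw [LinearMap.comp_apply, h1, Fintype.linearCombination_apply_single, smul_eq_mul, one_mul]

/-- one index can be dropped to keep independence modulo a vector -/
lemma drop_one [DecidableEq ι] {V : Type*} [AddCommGroup V] [Module F V] {e : ι → V} {G : Finset ι}
    (hG : ∀ c : ι → F, ∑ i ∈ G, c i • e i = 0 → ∀ i ∈ G, c i = 0) (u : V) :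
    ∃ G' ⊆ G, (G \ G').card ≤ 1 ∧
      ∀ c : ι → F, ∑ i ∈ G', c i • (Submodule.span F {u}).mkQ (e i) = 0 → ∀ i ∈ G', c i = 0 := by
  by_cases h : ∀ c : ι → F, ∑ i ∈ G, c i • (Submodule.span F {u}).mkQ (e i) = 0 → ∀ i ∈ G, c i = 0
  · exact ⟨G, Finset.Subset.refl _, by simp, h⟩
  push Not at h
  obtain ⟨c, hc, g, hg, hcg⟩ := h
  have hmk : ∀ (S : Finset ι) (d : ι → F), ∑ i ∈ S, d i • (Submodule.span F {u}).mkQ (e i) = 0 →
      ∃ m : F, ∑ i ∈ S, d i • e i = m • u := by
    intro S d hd
    have h1 : (Submodule.span F {u}).mkQ (∑ i ∈ S, d i • e i) = 0 := by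
      rw [map_sum, ← hd]
      refine Finset.sum_congr rfl fun i _ => by rw [map_smul]
    rw [Submodule.mkQ_apply, Submodule.Quotient.mk_eq_zero, Submodule.mem_span_singleton] at h1
    obtain ⟨m, hm⟩ := h1
    exact ⟨m, hm.symm⟩
  obtain ⟨m, hm⟩ := hmk G c hc
  have hm0 : m ≠ 0 := by
    rintro rfl
    rw [zero_smul] at hm
    exact hcg (hG c hm g hg)
  refine ⟨G.erase g, Finset.erase_subset _ _, ?_, ?_⟩
  · rw [Finset.sdiff_erase hg]; simp
  · intro d hd i hi
    obtain ⟨m', hm'⟩ := hmk _ d hd
    have h1 := hG (fun j => (if j = g then 0 else d j) - m' * m⁻¹ * c j) (by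
      simp only [sub_smul, Finset.sum_sub_distrib]
      have h2 : ∑ j ∈ G, (if j = g then (0 : F) else d j) • e j = m' • u := by
        rw [← hm', ← Finset.sum_erase_add _ _ hg, if_pos rfl, zero_smul, add_zero]
        refine Finset.sum_congr rfl fun j hj => ?_
        rw [if_neg (Finset.ne_of_mem_erase hj)]
      have h3 : ∑ j ∈ G, (m' * m⁻¹ * c j) • e j = m' • u := by
        simp only [mul_smul]
        rw [← Finset.smul_sum, ← Finset.smul_sum, hm, inv_smul_smul₀ hm0]
      rw [h2, h3, sub_self])
    have h4 := h1 g hg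
    rw [if_pos rfl, zero_sub, neg_eq_zero] at h4
    have hm'0 : m' = 0 := by
      rcases mul_eq_zero.1 h4 with h5 | h5
      · rcases mul_eq_zero.1 h5 with h6 | h6
        · exact h6
        · exact absurd h6 (inv_ne_zero hm0)
      · exact absurd h5 hcg
    have h7 := h1 i (Finset.mem_of_mem_erase hi)
    rw [if_neg (Finset.ne_of_mem_erase hi), hm'0, zero_mul, zero_mul, sub_zero] at h7
    exact h7

theorem star [Fintype ι] (n : ℕ) : ∀ (V : Type u) [AddCommGroup V] [Module F V]
    [FiniteDimensional F V], finrank F V = n → ∀ (e a : ι → V) (ν : ℕ),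
    (∀ J : Finset ι, IsM (k := F) e a J → J.card ≤ ν) → ∀ G : Finset ι,
    (∀ c : ι → F, ∑ i ∈ G, c i • e i = 0 → ∀ i ∈ G, c i = 0) →
    ∃ v : ι → F, finrank F (Submodule.span F ((fun i => a i + v i • e i) '' (G : Set ι))) ≤
      2 * ν := by
  classical
  induction n using Nat.strong_induction_on with
  | _ n ih =>
  intro V _ _ _ hn e a ν hν G hG
  obtain ⟨J0, hJ0, hmax⟩ := Finset.exists_max_image
    (Finset.univ.filter fun J : Finset ι => IsM (k := F) e a J) Finset.card
    ⟨∅, by simp [IsM]⟩
  rw [Finset.mem_filter] at hJ0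
  have hν0 : ∀ J : Finset ι, IsM (k := F) e a J → J.card ≤ J0.card := fun J hJ =>
    hmax J (by simp [hJ])
  have hle := hν J0 hJ0.2
  suffices h : ∃ v : ι → F, finrank F (Submodule.span F
      ((fun i => a i + v i • e i) '' (G : Set ι))) ≤ 2 * J0.card by
    obtain ⟨v, hv⟩ := h
    exact ⟨v, by omega⟩
  by_cases H0 : ∀ x : V, x ≠ 0 → ∃ J : Finset ι, IsM (k := F) e a J ∧ J.card = J0.card ∧
      x ∉ sp (k := F) e a J
  · obtain ⟨f, hf⟩ := exists_dual_one hG
    refine ⟨fun i => - f (a i), ?_⟩
    refine le_trans (Submodule.finrank_mono ?_) (case_zero e a J0.card hν0 H0 f)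
    rw [Submodule.span_le]
    rintro x ⟨i, hi, rfl⟩
    apply Submodule.subset_span
    refine ⟨i, ?_, ?_⟩
    · rw [hf i hi]; exact one_ne_zero
    · rw [hf i hi, one_smul]
      show a i + (- f (a i)) • e i = _
      rw [neg_smul, sub_eq_add_neg]
  · push Not at H0
    obtain ⟨w, hw0, hw⟩ := H0
    set L : Submodule F V := Submodule.span F {w} with hL
    have hL1 : finrank F L = 1 := finrank_span_singleton hw0
    have hlt : ∀ J : Finset ι, IsM (k := F) (fun i => L.mkQ (e i)) (fun i => L.mkQ (a i)) J →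
        J.card < J0.card := by
      intro J hJ
      unfold IsM at hJ
      rw [← map_sp] at hJ
      have h1 := finrank_map_add L.mkQ (sp (k := F) e a J)
      rw [Submodule.ker_mkQ] at h1
      have h2 := finrank_sp_le (k := F) e a J
      have h3 : IsM (k := F) e a J := by
        unfold IsM
        omega
      refine lt_of_le_of_ne (hν0 J h3) ?_
      intro heq
      have h4 := hw J h3 heq
      have h5 : L ≤ sp (k := F) e a J ⊓ L := le_inf (by
        rw [hL, Submodule.span_singleton_le_iff_mem]; exact h4) le_rfl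
      have h6 := Submodule.finrank_mono h5
      omega
    have hpos : 0 < J0.card := hlt ∅ (by simp [IsM])
    have hdim : finrank F (V ⧸ L) < n := by
      have := Submodule.finrank_quotient_add_finrank L
      omega
    obtain ⟨G', hG'1, hG'2, hG'3⟩ := drop_one hG w
    obtain ⟨v, hv⟩ := ih _ hdim (V ⧸ L) rfl (fun i => L.mkQ (e i)) (fun i => L.mkQ (a i))
      (J0.card - 1) (fun J hJ => by have := hlt J hJ; omega) G' hG'3
    refine ⟨v, ?_⟩
    set S := Submodule.span F ((fun i => a i + v i • e i) '' (G' : Set ι)) with hS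
    have h1 : S.map L.mkQ = Submodule.span F
        ((fun i => L.mkQ (a i) + v i • L.mkQ (e i)) '' (G' : Set ι)) := by
      rw [hS, Submodule.map_span, Set.image_image]
      simp only [map_add, map_smul]
    have h2 := finrank_map_add L.mkQ S
    rw [h1, Submodule.ker_mkQ] at h2
    have h3 : finrank F (S ⊓ L : Submodule F V) ≤ 1 := by
      rw [← hL1]
      exact Submodule.finrank_mono inf_le_right
    set T := Submodule.span F (((G \ G').image (fun i => a i + v i • e i) : Finset V) : Set V) with hT
    have h4 : finrank F T ≤ 1 := by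
      refine (finrank_span_finset_le_card _).trans ?_
      exact Finset.card_image_le.trans hG'2
    have h5 : Submodule.span F ((fun i => a i + v i • e i) '' (G : Set ι)) ≤ S ⊔ T := by
      rw [Submodule.span_le]
      rintro x ⟨i, hi, rfl⟩
      by_cases hi' : i ∈ G'
      · exact Submodule.mem_sup_left (Submodule.subset_span ⟨i, hi', rfl⟩)
      · refine Submodule.mem_sup_right (Submodule.subset_span ?_)
        rw [Finset.coe_image]
        exact ⟨i, by simpa using ⟨hi, hi'⟩, rfl⟩
    have h6 := Submodule.finrank_mono h5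
    have h7 := Submodule.finrank_add_le_finrank_add_finrank S T
    omega

end Pool.Agent.Q216.ER
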